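import Pool.Agent.Lib.LD.Def

/-!
# H33FD, file Side: separations and uncrossed 2-cuts (MP_33911d, form D)

`Gt E Y`: the graph with the edges `xy` for all uncrossed 2-cuts `{x, y}` added.
* `not_x2`: a set which is connected in `Gt E Y` is not separated by a 2-cut which misses it;
* `conn_side`: the part of such a set on one closed side of an uncrossed 2-cut is connected in `Gt E Y`;
* `x2_add`: if `W` lies in one closed side and is in `X2`, then so is `W ∪ B` for `B` in the other side.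
-/

set_option autoImplicit false
set_option linter.unusedSectionVars false

namespace H33FD

open Finset H98M LD

variable {V : Type*} [Fintype V] [DecidableEq V]

/-- The graph with the uncrossed 2-cuts as additional edges. -/
noncomputable def Gt (E : Finset (Sym2 V)) (Y : Finset V) : Finset (Sym2 V) :=
  @Finset.filter _ (fun e => e ∈ E ∨ ∃ x y P Q, e = s(x, y) ∧ Sep E Y x y P Q ∧ Unc E Y x y)
    (Classical.decPred _) univ

theorem mem_Gt {E : Finset (Sym2 V)} {Y : Finset V} {e : Sym2 V} :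
    e ∈ Gt E Y ↔ e ∈ E ∨ ∃ x y P Q, e = s(x, y) ∧ Sep E Y x y P Q ∧ Unc E Y x y := by
  unfold Gt
  refine (@Finset.mem_filter _ _ (Classical.decPred _) _ _).trans ?_
  exact ⟨fun h => h.2, fun h => ⟨mem_univ _, h⟩⟩

theorem Gt_sub {E : Finset (Sym2 V)} {Y : Finset V} : E ⊆ Gt E Y := fun _ he => mem_Gt.2 (Or.inl he)

/-- No edge of `Gt E Y` joins the two sides of a separation. -/
theorem Gt_noE {E : Finset (Sym2 V)} {Y P Q : Finset V} {x y : V} (hS : Sep E Y x y P Q) :
    ∀ a ∈ P, ∀ b ∈ Q, s(a, b) ∉ Gt E Y := by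
  intro a ha b hb h
  rcases mem_Gt.1 h with h | ⟨u, v, P', Q', he, -, hU⟩
  · exact hS.noE a ha b hb h
  · rcases Sym2.eq_iff.1 he with ⟨rfl, rfl⟩ | ⟨rfl, rfl⟩
    · exact hU x y P Q hS ⟨ha, hb⟩
    · exact hU x y Q P hS.symm ⟨hb, ha⟩

theorem mem_sep {E : Finset (Sym2 V)} {Y P Q : Finset V} {x y v : V} (hS : Sep E Y x y P Q) (hv : v ∈ Y) :
    v = x ∨ v = y ∨ v ∈ P ∨ v ∈ Q := by
  rw [← hS.eq, mem_insert, mem_insert, mem_union] at hv
  exact hv

/-- A set connected in `Gt E Y` is not in `X2`. -/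
theorem not_x2 {E : Finset (Sym2 V)} {Y M : Finset V} (hM : M ⊆ Y) (hc : ¬ Disc M (Gt E Y)) : ¬ X2 E Y M := by
  rintro ⟨x, y, P, Q, hS, hx, hy, ⟨a, ha, haP⟩, b, hb, hbQ⟩
  refine hc ⟨M ∩ P, M ∩ Q, ⟨a, mem_inter.2 ⟨ha, haP⟩⟩, ⟨b, mem_inter.2 ⟨hb, hbQ⟩⟩, ?_, ?_, ?_⟩
  · exact disjoint_of_subset_left inter_subset_right (disjoint_of_subset_right inter_subset_right hS.dis)
  · ext v
    simp only [mem_union, mem_inter]
    constructor
    · rintro (h | h)
      · exact h.1
      · exact h.1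
    · intro hv
      rcases mem_sep hS (hM hv) with h | h | h | h
      · exact absurd (h ▸ hv) hx
      · exact absurd (h ▸ hv) hy
      · exact Or.inl ⟨hv, h⟩
      · exact Or.inr ⟨hv, h⟩
  · exact fun u hu v hv => Gt_noE hS u (mem_inter.1 hu).2 v (mem_inter.1 hv).2

/-- The part on one closed side of an uncrossed 2-cut. -/
theorem conn_side {E : Finset (Sym2 V)} {Y M P Q : Finset V} {x y : V} (hM : M ⊆ Y)
    (hc : ¬ Disc M (Gt E Y)) (hU : Unc E Y x y) (hS : Sep E Y x y P Q) (hQ : (M ∩ Q).Nonempty) : ¬ Disc (M ∩ insert x (insert y P)) (Gt E Y) := by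
  intro hd
  -- a part `D` of `M ∩ (P ∪ {x, y})` which avoids `x` and `y`
  have key : ∀ C D : Finset V, D.Nonempty → Disjoint C D → C ∪ D = M ∩ insert x (insert y P) →
      (∀ u ∈ C, ∀ v ∈ D, s(u, v) ∉ Gt E Y) → x ∉ D → y ∉ D → False := by
    intro C D hD hCD hW h hx hy
    have hDP : D ⊆ P := by
      intro d hd
      have h1 : d ∈ M ∩ insert x (insert y P) := hW ▸ mem_union_right _ hd
      have h2 := (mem_inter.1 h1).2
      rw [mem_insert, mem_insert] at h2
      rcases h2 with h2 | h2 | h2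
      · exact absurd (h2 ▸ hd) hx
      · exact absurd (h2 ▸ hd) hy
      · exact h2
    have hDM : D ⊆ M := fun d hd => (mem_inter.1 (hW ▸ mem_union_right _ hd : d ∈ M ∩ insert x (insert y P))).1
    obtain ⟨q, hq⟩ := hQ
    rw [mem_inter] at hq
    refine hc ⟨M \ D, D, ⟨q, mem_sdiff.2 ⟨hq.1, fun h1 => disjoint_left.1 hS.dis (hDP h1) hq.2⟩⟩, hD,
      sdiff_disjoint, sdiff_union_of_subset hDM, ?_⟩
    intro u hu v hv
    rw [mem_sdiff] at hu
    rcases mem_sep hS (hM hu.1) with h1 | h1 | h1 | h1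
    · refine h u ?_ v hv
      have h2 : u ∈ C ∪ D := by
        rw [hW, mem_inter, mem_insert]
        exact ⟨hu.1, Or.inl h1⟩
      exact (mem_union.1 h2).resolve_right hu.2
    · refine h u ?_ v hv
      have h2 : u ∈ C ∪ D := by
        rw [hW, mem_inter, mem_insert, mem_insert]
        exact ⟨hu.1, Or.inr (Or.inl h1)⟩
      exact (mem_union.1 h2).resolve_right hu.2
    · refine h u ?_ v hv
      have h2 : u ∈ C ∪ D := by
        rw [hW, mem_inter, mem_insert, mem_insert]
        exact ⟨hu.1, Or.inr (Or.inr h1)⟩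
      exact (mem_union.1 h2).resolve_right hu.2
    · exact Gt_noE hS.symm u h1 v (hDP hv)
  obtain ⟨C, D, hC, hD, hCD, hW, h⟩ := hd
  have hxy : s(x, y) ∈ Gt E Y := mem_Gt.2 (Or.inr ⟨x, y, P, Q, rfl, hS, hU⟩)
  have hyx : s(y, x) ∈ Gt E Y := by
    rw [Sym2.eq_swap]
    exact hxy
  have h' : ∀ u ∈ D, ∀ v ∈ C, s(u, v) ∉ Gt E Y := fun u hu v hv => by
    rw [Sym2.eq_swap]
    exact h v hv u hu
  have hW' : D ∪ C = M ∩ insert x (insert y P) := by rw [union_comm, hW]
  by_cases hxD : x ∈ D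
  · by_cases hyC : y ∈ C
    · exact h y hyC x hxD hyx
    · exact key D C hC hCD.symm hW' h' (fun hxC => disjoint_left.1 hCD hxC hxD) hyC
  · by_cases hyD : y ∈ D
    · by_cases hxC : x ∈ C
      · exact h x hxC y hyD hxy
      · exact key D C hC hCD.symm hW' h' hxC fun hyC => disjoint_left.1 hCD hyC hyD
    · exact key C D hD hCD hW h hxD hyD

/-- A 2-cut which separates a set `W` in one closed side of an uncrossed 2-cut has no vertex in the other side. -/
theorem sep_side {E : Finset (Sym2 V)} {Y W P Q P' Q' : Finset V} {x y u v : V} (hT : TCY E Y)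
    (hU : Unc E Y x y) (hS : Sep E Y x y P Q) (hW : W ⊆ insert x (insert y P)) (hS' : Sep E Y u v P' Q')
    (hv : v ∉ W) (h1 : ∃ a ∈ W, a ∈ P') (h2 : ∃ b ∈ W, b ∈ Q') : u ∉ Q := by
  intro huQ
  -- the two sides are symmetric: it is enough to treat the case that `{x, y} \ {v}` lies in `P'`
  have key : ∀ P' Q' : Finset V, Sep E Y u v P' Q' → (∃ b ∈ W, b ∈ Q') →
      (∀ t, (t = x ∨ t = y) → t ≠ v → t ∈ P') → False := by
    intro P' Q' hS' ⟨w, hwW, hwQ'⟩ ht
    have hvY : v ∈ Y := by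
      rw [← hS'.eq]
      simp
    have hwv : w ≠ v := fun e => hv (e ▸ hwW)
    have hwP : w ∈ P := by
      have h3 := hW hwW
      rw [mem_insert, mem_insert] at h3
      rcases h3 with h3 | h3 | h3
      · exact absurd hwQ' (disjoint_left.1 hS'.dis (ht w (Or.inl h3) hwv))
      · exact absurd hwQ' (disjoint_left.1 hS'.dis (ht w (Or.inr h3) hwv))
      · exact h3
    obtain ⟨t, ht1, ht2⟩ : ∃ t, (t = x ∨ t = y) ∧ t ≠ v := by
      by_cases hxv : x = v
      · exact ⟨y, Or.inr rfl, fun e => hS.ne (hxv.trans e.symm)⟩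
      · exact ⟨x, Or.inl rfl, hxv⟩
    have htP' := ht t ht1 ht2
    have htY : t ∈ Y := by
      rw [← hS'.eq, mem_insert, mem_insert, mem_union]
      exact Or.inr (Or.inr (Or.inl htP'))
    have hsub : P ∩ Q' ⊆ Y.erase v := by
      intro a ha
      rw [mem_inter] at ha
      refine mem_erase.2 ⟨fun e => hS'.yQ (e ▸ ha.2), ?_⟩
      rw [← hS'.eq, mem_insert, mem_insert, mem_union]
      exact Or.inr (Or.inr (Or.inr ha.2))
    refine hT.conn' v hvY ⟨P ∩ Q', Y.erase v \ (P ∩ Q'), ⟨w, mem_inter.2 ⟨hwP, hwQ'⟩⟩, ⟨t, ?_⟩, disjoint_sdiff,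
      union_sdiff_of_subset hsub, ?_⟩
    · rw [mem_sdiff, mem_erase, mem_inter]
      exact ⟨⟨ht2, htY⟩, fun h3 => disjoint_left.1 hS'.dis htP' h3.2⟩
    · intro a ha b hb hab
      rw [mem_inter] at ha
      rw [mem_sdiff, mem_erase, mem_inter] at hb
      obtain ⟨⟨hbv, hbY⟩, hbn⟩ := hb
      have hbQ : b ∉ Q := fun h3 => hS.noE a ha.1 b h3 hab
      have hbP' : b ∉ P' := fun h3 => hS'.noE b h3 a ha.2 (by rw [Sym2.eq_swap]; exact hab)
      rcases mem_sep hS' hbY with h3 | h3 | h3 | h3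
      · exact hbQ (h3 ▸ huQ)
      · exact hbv h3
      · exact hbP' h3
      · rcases mem_sep hS hbY with h4 | h4 | h4 | h4
        · exact hbP' (ht b (Or.inl h4) hbv)
        · exact hbP' (ht b (Or.inr h4) hbv)
        · exact hbn ⟨h4, h3⟩
        · exact hbQ h4
  have hxY : x ∈ Y := by
    rw [← hS.eq]
    simp
  have hyY : y ∈ Y := by
    rw [← hS.eq]
    simp
  have hxu : x ≠ u := fun e => hS.xQ (e ▸ huQ)
  have hyu : y ≠ u := fun e => hS.yQ (e ▸ huQ)
  by_cases hxv : x = v
  · have hyv : y ≠ v := fun e => hS.ne (hxv.trans e.symm)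
    rcases mem_sep hS' hyY with h3 | h3 | h3 | h3
    · exact hyu h3
    · exact hyv h3
    · exact key P' Q' hS' h2 fun t ht htv => by
        rcases ht with rfl | rfl
        · exact absurd hxv htv
        · exact h3
    · exact key Q' P' hS'.symm h1 fun t ht htv => by
        rcases ht with rfl | rfl
        · exact absurd hxv htv
        · exact h3
  · by_cases hyv : y = v
    · rcases mem_sep hS' hxY with h3 | h3 | h3 | h3
      · exact hxu h3
      · exact hxv h3
      · exact key P' Q' hS' h2 fun t ht htv => by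
          rcases ht with rfl | rfl
          · exact h3
          · exact absurd hyv htv
      · exact key Q' P' hS'.symm h1 fun t ht htv => by
          rcases ht with rfl | rfl
          · exact h3
          · exact absurd hyv htv
    · rcases mem_sep hS' hxY with h3 | h3 | h3 | h3
      · exact hxu h3
      · exact hxv h3
      · rcases mem_sep hS' hyY with h4 | h4 | h4 | h4
        · exact hyu h4
        · exact hyv h4
        · exact key P' Q' hS' h2 fun t ht _ => by
            rcases ht with rfl | rfl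
            · exact h3
            · exact h4
        · exact hU u v P' Q' hS' ⟨h3, h4⟩
      · rcases mem_sep hS' hyY with h4 | h4 | h4 | h4
        · exact hyu h4
        · exact hyv h4
        · exact hU u v Q' P' hS'.symm ⟨h3, h4⟩
        · exact key Q' P' hS'.symm h1 fun t ht _ => by
            rcases ht with rfl | rfl
            · exact h3
            · exact h4

/-- Adding vertices of the other side. -/
theorem x2_add {E : Finset (Sym2 V)} {Y W B P Q : Finset V} {x y : V} (hT : TCY E Y) (hU : Unc E Y x y)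
    (hS : Sep E Y x y P Q) (hW : W ⊆ insert x (insert y P)) (hX : X2 E Y W) (hB : B ⊆ Q) : X2 E Y (W ∪ B) := by
  obtain ⟨u, v, P', Q', hS', hu, hv, h1, h2⟩ := hX
  have huQ : u ∉ Q := sep_side hT hU hS hW hS' hv h1 h2
  have hvQ : v ∉ Q := sep_side hT hU hS hW hS'.flip hu h1 h2
  refine ⟨u, v, P', Q', hS', ?_, ?_, ?_, ?_⟩
  · rw [mem_union]
    rintro (h | h)
    · exact hu h
    · exact huQ (hB h)
  · rw [mem_union]
    rintro (h | h)
    · exact hv h
    · exact hvQ (hB h)
  · obtain ⟨a, ha, ha'⟩ := h1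
    exact ⟨a, mem_union_left _ ha, ha'⟩
  · obtain ⟨b, hb, hb'⟩ := h2
    exact ⟨b, mem_union_left _ hb, hb'⟩

/-- Two vertices which are not separated by a 2-cut lie in no set of `X2`. -/
theorem not_x2_pair {E : Finset (Sym2 V)} {Y W : Finset V} {x y : V} (hU : Unc E Y x y)
    (hW : W ⊆ {x, y}) : ¬ X2 E Y W := by
  rintro ⟨u, v, P, Q, hS, -, -, ⟨a, ha, haP⟩, b, hb, hbQ⟩
  have h1 := hW ha
  have h2 := hW hb
  rw [mem_insert, mem_singleton] at h1 h2
  have hab : a ≠ b := fun e => disjoint_left.1 hS.dis haP (e ▸ hbQ)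
  rcases h1 with rfl | rfl <;> rcases h2 with rfl | rfl
  · exact hab rfl
  · exact hU u v P Q hS ⟨haP, hbQ⟩
  · exact hU u v Q P hS.symm ⟨hbQ, haP⟩
  · exact hab rfl

end H33FD
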